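import Pool.Agent.H243R3.MU.Mat

/-!
# Bounds for the structured singular value of the cyclic matrix
-/

set_option autoImplicit false

namespace Pool.Agent.H243R3.MU

open scoped Matrix.Norms.L2Operator

variable {E : List (ℕ × ℕ)} {N : ℕ}

theorem good (hE : ∀ e ∈ E, e.1 < N ∧ e.2 < N) {b ρ : ℝ} (hρ : 0 < ρ)
    (hb : ∀ x : ℕ → ℂ, (∀ i, ‖x i‖ ≤ 1) → Q E x ≤ b) (h : b < ρ ^ 3) :
    ∀ Δ ∈ Blocks (List.replicate (2 * N + 1) 1),
      (1 - (ρ : ℂ)⁻¹ • (Δ * toMat (List.replicate (2 * N + 1) 1) (mat E N))).det ≠ 0 := by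
  intro Δ hΔ hdet
  obtain ⟨δ, hδ, rfl⟩ := blocks_diag get_one hΔ
  obtain ⟨v, hv0, hv⟩ := (det_zero_iff _ _ _).1 hdet
  set t : ℂ := (ρ : ℂ)⁻¹ with ht
  set V : ℕ → ℂ := fun j => if h : j < 2 * N + 1 then v (ofPos j h) else 0 with hV
  set d : ℕ → ℂ := fun j => if h : j < 2 * N + 1 then δ (ofPos j h) else 0 with hd
  have hVp : ∀ p, v p = V (pos p) := by
    intro p
    simp only [hV, dif_pos (pos_lt p)]
    rw [pos_inj (pos_ofPos (pos p) (pos_lt p))]
  have hdp : ∀ p, δ p = d (pos p) := by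
    intro p
    simp only [hd, dif_pos (pos_lt p)]
    rw [pos_inj (pos_ofPos (pos p) (pos_lt p))]
  have hd1 : ∀ j, ‖d j‖ ≤ 1 := by
    intro j
    simp only [hd]
    split_ifs with hj
    · exact hδ _
    · simp
  have hrow : ∀ j, j < 2 * N + 1 → V j = t * (d j *
      (if j < N then ∑ k ∈ Finset.range N, (lap E j k : ℂ) * V (N + k)
      else if j < 2 * N then V (2 * N) else ∑ k ∈ Finset.range N, V k)) := by
    intro j hj
    have h1 := hv (ofPos j hj)
    rw [hVp, hdp, pos_ofPos] at h1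
    rw [h1]
    congr 2
    have h2 := mulVec_row (E := E) (N := N) V (ofPos j hj)
    rw [pos_ofPos] at h2
    rw [← h2]
    exact Finset.sum_congr rfl fun q _ => by rw [hVp q]
  have h3 : ∀ j < N, V (N + j) = t * (d (N + j) * V (2 * N)) := by
    intro j hj
    rw [hrow (N + j) (by omega), if_neg (by omega), if_pos (by omega)]
  have h1 : ∀ i < N, V i = t * (d i * ∑ k ∈ Finset.range N, (lap E i k : ℂ) * V (N + k)) := by
    intro i hi
    rw [hrow i (by omega), if_pos hi]
  have h2 : V (2 * N) = t * (d (2 * N) * ∑ k ∈ Finset.range N, V k) := by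
    conv_lhs => rw [hrow (2 * N) (by omega), if_neg (by omega), if_neg (by omega)]
  have h4 : ∀ i < N, V i = t ^ 2 * V (2 * N) *
      (d i * ∑ k ∈ Finset.range N, (lap E i k : ℂ) * d (N + k)) := by
    intro i hi
    rw [h1 i hi, Finset.mul_sum, Finset.mul_sum, Finset.mul_sum, Finset.mul_sum]
    refine Finset.sum_congr rfl fun k hk => ?_
    rw [h3 k (Finset.mem_range.1 hk)]
    ring
  have h5 : V (2 * N) = t ^ 3 * d (2 * N) * Fm E d (fun k => d (N + k)) * V (2 * N) := by
    conv_lhs => rw [h2, Finset.sum_congr rfl fun k hk => h4 k (Finset.mem_range.1 hk)]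
    rw [← Finset.mul_sum, lap_form E hE d (fun k => d (N + k))]
    ring
  have h6 : V (2 * N) ≠ 0 := by
    intro h0
    apply hv0
    funext p
    rw [hVp, Pi.zero_apply]
    have hp := pos_lt p
    by_cases hp1 : pos p < N
    · rw [h4 _ hp1, h0]
      ring
    · by_cases hp2 : pos p < 2 * N
      · obtain ⟨k, hk⟩ := Nat.exists_eq_add_of_le (not_lt.1 hp1)
        rw [hk, h3 k (by omega), h0]
        ring
      · have : pos p = 2 * N := by omega
        rw [this, h0]
  have h7 : t ^ 3 * d (2 * N) * Fm E d (fun k => d (N + k)) = 1 := by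
    have := mul_right_cancel₀ h6 (by rw [one_mul]; exact h5.symm :
      t ^ 3 * d (2 * N) * Fm E d (fun k => d (N + k)) * V (2 * N) = 1 * V (2 * N))
    exact this
  have hρc : (ρ : ℂ) ≠ 0 := by exact_mod_cast hρ.ne'
  have h8 : (ρ : ℂ) ^ 3 = d (2 * N) * Fm E d (fun k => d (N + k)) := by
    have : (ρ : ℂ) ^ 3 * (t ^ 3 * d (2 * N) * Fm E d (fun k => d (N + k))) = (ρ : ℂ) ^ 3 := by
      rw [h7, mul_one]
    rw [← this, ht]
    field_simp
  have h9 : ρ ^ 3 ≤ b := by
    calc ρ ^ 3 = ‖(ρ : ℂ) ^ 3‖ := by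
          rw [norm_pow, Complex.norm_real, Real.norm_of_nonneg hρ.le]
      _ = ‖d (2 * N)‖ * ‖Fm E d (fun k => d (N + k))‖ := by rw [h8, norm_mul]
      _ ≤ 1 * ‖Fm E d (fun k => d (N + k))‖ :=
          mul_le_mul_of_nonneg_right (hd1 _) (norm_nonneg _)
      _ ≤ (Q E d + Q E (fun k => d (N + k))) / 2 := by rw [one_mul]; exact norm_Fm_le _ _ _
      _ ≤ b := by
          have := hb d hd1
          have := hb (fun k => d (N + k)) fun k => hd1 _
          linarith
  linarith

theorem bad (hE : ∀ e ∈ E, e.1 < N ∧ e.2 < N) {a ρ : ℝ} (hρ : 0 < ρ) (ha : 0 < a) (x : ℕ → ℂ)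
    (hx : ∀ i, ‖x i‖ ≤ 1) (hQ : Q E x = a) (h : ρ ^ 3 ≤ a) :
    ∃ Δ ∈ Blocks (List.replicate (2 * N + 1) 1),
      (1 - (ρ : ℂ)⁻¹ • (Δ * toMat (List.replicate (2 * N + 1) 1) (mat E N))).det = 0 := by
  set t : ℂ := (ρ : ℂ)⁻¹ with ht
  set y : ℕ → ℂ := fun i => (starRingEnd ℂ) (x i) with hy
  set d : ℕ → ℂ := fun i => if i < N then y i else if i < 2 * N then x (i - N)
    else (ρ : ℂ) ^ 3 / (a : ℂ) with hd
  set V : ℕ → ℂ := fun i => if i < N then t ^ 2 * (y i * ∑ k ∈ Finset.range N,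
    (lap E i k : ℂ) * x k) else if i < 2 * N then t * x (i - N) else 1 with hV
  have hρc : (ρ : ℂ) ≠ 0 := by exact_mod_cast hρ.ne'
  have hac : (a : ℂ) ≠ 0 := by exact_mod_cast ha.ne'
  refine ⟨Matrix.diagonal fun p => d (pos p), diag_blocks fun p => ?_, ?_⟩
  · simp only [hd]
    split_ifs
    · rw [hy]
      simpa using hx (pos p)
    · exact hx _
    · rw [norm_div, norm_pow, Complex.norm_real, Complex.norm_real, Real.norm_of_nonneg hρ.le,
        Real.norm_of_nonneg ha.le]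
      exact (div_le_one ha).2 h
  · rw [det_zero_iff]
    refine ⟨fun p => V (pos p), fun h0 => ?_, fun p => ?_⟩
    · have h1 := congrFun h0 (ofPos (2 * N) (by omega))
      simp only [pos_ofPos, Pi.zero_apply, hV] at h1
      rw [if_neg (by omega), if_neg (by omega)] at h1
      exact one_ne_zero h1
    · have hrow := mulVec_row (E := E) (N := N) V p
      simp only
      rw [hrow]
      have hp := pos_lt p
      have hVN : ∀ k < N, V (N + k) = t * x k := by
        intro k hk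
        simp only [hV]
        rw [if_neg (by omega), if_pos (by omega), Nat.add_sub_cancel_left]
      by_cases hp1 : pos p < N
      · rw [if_pos hp1]
        rw [Finset.sum_congr rfl fun k hk => by rw [hVN k (Finset.mem_range.1 hk)]]
        simp only [hV, hd, if_pos hp1]
        rw [Finset.mul_sum, Finset.mul_sum, Finset.mul_sum, Finset.mul_sum]
        refine Finset.sum_congr rfl fun k _ => ?_
        ring
      · rw [if_neg hp1]
        by_cases hp2 : pos p < 2 * N
        · rw [if_pos hp2]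
          have h2 : V (2 * N) = 1 := by
            simp only [hV]
            rw [if_neg (by omega), if_neg (by omega)]
          rw [h2]
          simp only [hV, hd, if_neg hp1, if_pos hp2]
          ring
        · rw [if_neg hp2]
          have hp3 : pos p = 2 * N := by omega
          have h2 : ∑ k ∈ Finset.range N, V k = t ^ 2 * (a : ℂ) := by
            rw [← hQ, ← Fm_conj, ← lap_form E hE, Finset.mul_sum]
            refine Finset.sum_congr rfl fun k hk => ?_
            simp only [hV, if_pos (Finset.mem_range.1 hk)]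
            rfl
          rw [h2]
          simp only [hV, hd, if_neg hp1, if_neg hp2]
          rw [ht]
          field_simp

theorem Q_le_card (x : ℕ → ℂ) (hx : ∀ i, ‖x i‖ ≤ 1) : Q E x ≤ 4 * E.length := by
  induction E with
  | nil => simp [Q]
  | cons e E ih =>
    have e2 : Q (e :: E) x = ‖x e.1 - x e.2‖ ^ 2 + Q E x := by
      simp [Q]
    have h1 : ‖x e.1 - x e.2‖ ≤ 2 := (norm_sub_le _ _).trans (by linarith [hx e.1, hx e.2])
    have h2 := norm_nonneg (x e.1 - x e.2)
    rw [e2, List.length_cons]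
    push_cast
    nlinarith

theorem mu_le (hE : ∀ e ∈ E, e.1 < N ∧ e.2 < N) {b ρ : ℝ} (hρ : 0 < ρ)
    (hb : ∀ x : ℕ → ℂ, (∀ i, ‖x i‖ ≤ 1) → Q E x ≤ b) (h : b < ρ ^ 3) :
    muI (ins E N) ≤ ρ :=
  csInf_le ⟨0, fun _ h => h.1.le⟩ ⟨hρ, good hE hρ hb h⟩

theorem le_mu (hE : ∀ e ∈ E, e.1 < N ∧ e.2 < N) {α : ℝ} (hα : 0 < α) (x : ℕ → ℂ)
    (hx : ∀ i, ‖x i‖ ≤ 1) (hQ : Q E x = α ^ 3) : α ≤ muI (ins E N) := by
  refine le_csInf ⟨4 * E.length + 1, by positivity, good hE (by positivity)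
    (fun x hx => Q_le_card x hx) ?_⟩ ?_
  · have h0 : (0 : ℝ) ≤ 4 * E.length := by positivity
    nlinarith [mul_nonneg h0 h0, mul_nonneg (mul_nonneg h0 h0) h0]
  · rintro ρ ⟨hρ, hgood⟩
    by_contra hc
    push Not at hc
    obtain ⟨Δ, hΔ, h0⟩ := bad hE hρ (by positivity) x hx hQ (pow_le_pow_left₀ hρ.le hc.le 3)
    exact hgood Δ hΔ h0

theorem mu_nonneg (z : Inst) : 0 ≤ muI z := Real.sInf_nonneg fun _ h => h.1.le

end Pool.Agent.H243R3.MU
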