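import Mathlib

/-!
# Triangles of complex numbers of modulus at most one, and the clause gadget
-/

set_option autoImplicit false

namespace Pool.Agent.H243R3.MU

/-- The sum of the squares of the sides. -/
noncomputable def q (a b c : ℂ) : ℝ := ‖a - b‖ ^ 2 + ‖b - c‖ ^ 2 + ‖c - a‖ ^ 2

theorem q_eq (a b c : ℂ) :
    q a b c = 3 * (‖a‖ ^ 2 + ‖b‖ ^ 2 + ‖c‖ ^ 2) - ‖a + b + c‖ ^ 2 := by
  unfold q
  simp only [Complex.sq_norm, Complex.normSq_apply, Complex.sub_re, Complex.sub_im,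
    Complex.add_re, Complex.add_im]
  ring

theorem sq_le_one {a : ℂ} (h : ‖a‖ ≤ 1) : ‖a‖ ^ 2 ≤ 1 := by
  have := norm_nonneg a
  nlinarith

theorem q_le {a b c : ℂ} (ha : ‖a‖ ≤ 1) (hb : ‖b‖ ≤ 1) (hc : ‖c‖ ≤ 1) : q a b c ≤ 9 := by
  rw [q_eq]
  have := sq_le_one ha
  have := sq_le_one hb
  have := sq_le_one hc
  have := sq_nonneg ‖a + b + c‖
  linarith

/-- The three points form an equilateral triangle inscribed in the unit circle. -/
def Rb (a b c : ℂ) : Prop := ‖a‖ = 1 ∧ ‖b‖ = 1 ∧ ‖c‖ = 1 ∧ a + b + c = 0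

theorem rb_of_q {a b c : ℂ} (ha : ‖a‖ ≤ 1) (hb : ‖b‖ ≤ 1) (hc : ‖c‖ ≤ 1) (h : 9 ≤ q a b c) :
    Rb a b c := by
  rw [q_eq] at h
  have h1 := sq_le_one ha
  have h2 := sq_le_one hb
  have h3 := sq_le_one hc
  have h4 := sq_nonneg ‖a + b + c‖
  have e : ∀ z : ℂ, ‖z‖ ≤ 1 → 1 ≤ ‖z‖ ^ 2 → ‖z‖ = 1 := by
    intro z hz hz2
    have := norm_nonneg z
    nlinarith
  refine ⟨e a ha (by linarith), e b hb (by linarith), e c hc (by linarith), ?_⟩
  have h5 : ‖a + b + c‖ ^ 2 = 0 := by linarith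
  simpa using h5

theorem Rb.q {a b c : ℂ} (h : Rb a b c) : MU.q a b c = 9 := by
  obtain ⟨h1, h2, h3, h4⟩ := h
  rw [q_eq, h1, h2, h3, h4]
  norm_num

theorem Rb.rot {a b c : ℂ} (h : Rb a b c) : Rb b c a :=
  ⟨h.2.1, h.2.2.1, h.1, by rw [← h.2.2.2]; ring⟩

theorem Rb.swap {a b c : ℂ} (h : Rb a b c) : Rb a c b :=
  ⟨h.1, h.2.2.1, h.2.1, by rw [← h.2.2.2]; ring⟩

theorem Rb.quad {a b c : ℂ} (h : Rb a b c) : a ^ 2 + a * b + b ^ 2 = 0 := by
  obtain ⟨h1, h2, h3, h4⟩ := h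
  have hc : c = -(a + b) := by linear_combination h4
  have e : ∀ z : ℂ, ‖z‖ = 1 → z * (starRingEnd ℂ) z = 1 := by
    intro z hz
    rw [Complex.mul_conj, ← Complex.sq_norm, hz]
    norm_num
  have e1 := e a h1
  have e2 := e b h2
  have e3 := e c h3
  rw [hc, map_neg, map_add] at e3
  linear_combination (-b ^ 2 - a * b) * e1 + (-a ^ 2 - a * b) * e2 + a * b * e3

theorem Rb.ne {a b c : ℂ} (h : Rb a b c) : a ≠ b := by
  rintro rfl
  have h1 := h.quad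
  have h2 : (3 : ℂ) * a ^ 2 = 0 := by linear_combination h1
  have h3 : a = 0 := by simpa using h2
  have h4 := h.1
  rw [h3] at h4
  simp at h4

theorem Rb.det {a b c b' c' : ℂ} (h : Rb a b c) (h' : Rb a b' c') : b' = b ∨ b' = c := by
  have h1 := h.quad
  have h2 := h'.quad
  have h3 : (b' - b) * (b' - c) = 0 := by
    have hc : c = -(a + b) := by linear_combination h.2.2.2
    rw [hc]
    linear_combination h2 - h1
  rcases mul_eq_zero.1 h3 with h4 | h4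
  · exact Or.inl (sub_eq_zero.1 h4)
  · exact Or.inr (sub_eq_zero.1 h4)

/-- The clause gadget. -/
theorem gadget {B T F u1 u1' u2 u2' u3 u3' p1 p2 o1 q1 q2 r1 r2 r3 r4 : ℂ} (h0 : Rb B T F)
    (_h1 : Rb B u1 u1') (_h2 : Rb B u2 u2') (_h3 : Rb B u3 u3') (h4 : Rb p1 p2 o1)
    (h5 : Rb q1 q2 T) (h6 : Rb u1 p1 r1) (h7 : Rb u2 p2 r2) (h8 : Rb o1 q1 r3)
    (h9 : Rb u3 q2 r4) (e1 : u1 = F) (e2 : u2 = F) (e3 : u3 = F) : False := by
  rw [e1] at h6
  rw [e2] at h7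
  rw [e3] at h9
  have hF : Rb F B T := h0.rot.rot
  have a1 : p1 = B ∨ p1 = T := hF.det h6
  have a2 : p2 = B ∨ p2 = T := hF.det h7
  have a3 : q2 = B ∨ q2 = T := hF.det h9
  have n1 : p1 ≠ p2 := h4.ne
  have n2 : q1 ≠ q2 := h5.ne
  have n3 : q2 ≠ T := h5.rot.ne
  have n4 : T ≠ q1 := h5.rot.rot.ne
  have hs := h4.2.2.2
  have hs0 := h0.2.2.2
  have e4 : o1 = F := by
    rcases a1 with e | e <;> rcases a2 with e' | e'
    · exact absurd (e.trans e'.symm) n1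
    · rw [e, e'] at hs
      linear_combination hs - hs0
    · rw [e, e'] at hs
      linear_combination hs - hs0
    · exact absurd (e.trans e'.symm) n1
  rw [e4] at h8
  have a4 : q1 = B ∨ q1 = T := hF.det h8
  rcases a3 with e | e
  · rcases a4 with e' | e'
    · exact n2 (by rw [e, e'])
    · exact n4 e'.symm
  · exact n3 e

/-- The triangles of the gadget; the vertices are: `0, 1, 2` (base, true, false), `3`–`8` (the
literals and their negations), `9`–`17` (inner vertices). -/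
def tg : List (ℕ × ℕ × ℕ) :=
  [(0, 1, 2), (0, 3, 4), (0, 5, 6), (0, 7, 8), (9, 10, 11), (12, 13, 1), (3, 9, 14), (5, 10, 15),
    (11, 12, 16), (7, 13, 17)]

/-- The value of the gadget. -/
noncomputable def G (x : ℕ → ℂ) : ℝ := (tg.map fun t => q (x t.1) (x t.2.1) (x t.2.2)).sum

theorem G_le {x : ℕ → ℂ} (hx : ∀ i, ‖x i‖ ≤ 1) : G x ≤ 90 := by
  unfold G tg
  simp only [List.map_cons, List.map_nil, List.sum_cons, List.sum_nil]
  linarith [q_le (hx 0) (hx 1) (hx 2), q_le (hx 0) (hx 3) (hx 4), q_le (hx 0) (hx 5) (hx 6),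
    q_le (hx 0) (hx 7) (hx 8), q_le (hx 9) (hx 10) (hx 11), q_le (hx 12) (hx 13) (hx 1),
    q_le (hx 3) (hx 9) (hx 14), q_le (hx 5) (hx 10) (hx 15), q_le (hx 11) (hx 12) (hx 16),
    q_le (hx 7) (hx 13) (hx 17)]

/-- The literal with the vertices `u`, `u'` is not true. -/
def Nt (T F u u' : ℂ) : Prop := ‖u - F‖ ≤ ‖u - T‖ ∨ ‖u' - T‖ ≤ ‖u' - F‖

theorem nt_rb {B T F u u' : ℂ} (h0 : Rb B T F) (h : Rb B u u') (hn : Nt T F u u') : u = F := by
  have hTF : T ≠ F := h0.rot.ne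
  rcases h0.det h with e | e
  · rcases h0.det h.swap with e' | e'
    · exact absurd (e.trans e'.symm) h.rot.ne
    · subst e; subst e'
      rcases hn with hn | hn
      · rw [sub_self, norm_zero] at hn
        exact absurd (sub_eq_zero.1 (norm_le_zero_iff.1 hn)) hTF
      · rw [sub_self, norm_zero] at hn
        exact absurd (sub_eq_zero.1 (norm_le_zero_iff.1 hn)).symm hTF
  · exact e

theorem G_lt {x : ℕ → ℂ} (hx : ∀ i, ‖x i‖ ≤ 1) (h1 : Nt (x 1) (x 2) (x 3) (x 4))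
    (h2 : Nt (x 1) (x 2) (x 5) (x 6)) (h3 : Nt (x 1) (x 2) (x 7) (x 8)) : G x < 90 := by
  by_contra hc
  push Not at hc
  unfold G tg at hc
  simp only [List.map_cons, List.map_nil, List.sum_cons, List.sum_nil] at hc
  have b0 := q_le (hx 0) (hx 1) (hx 2)
  have b1 := q_le (hx 0) (hx 3) (hx 4)
  have b2 := q_le (hx 0) (hx 5) (hx 6)
  have b3 := q_le (hx 0) (hx 7) (hx 8)
  have b4 := q_le (hx 9) (hx 10) (hx 11)
  have b5 := q_le (hx 12) (hx 13) (hx 1)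
  have b6 := q_le (hx 3) (hx 9) (hx 14)
  have b7 := q_le (hx 5) (hx 10) (hx 15)
  have b8 := q_le (hx 11) (hx 12) (hx 16)
  have b9 := q_le (hx 7) (hx 13) (hx 17)
  have c0 := rb_of_q (hx 0) (hx 1) (hx 2) (by linarith)
  have c1 := rb_of_q (hx 0) (hx 3) (hx 4) (by linarith)
  have c2 := rb_of_q (hx 0) (hx 5) (hx 6) (by linarith)
  have c3 := rb_of_q (hx 0) (hx 7) (hx 8) (by linarith)
  exact gadget c0 c1 c2 c3 (rb_of_q (hx 9) (hx 10) (hx 11) (by linarith))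
    (rb_of_q (hx 12) (hx 13) (hx 1) (by linarith)) (rb_of_q (hx 3) (hx 9) (hx 14) (by linarith))
    (rb_of_q (hx 5) (hx 10) (hx 15) (by linarith)) (rb_of_q (hx 11) (hx 12) (hx 16) (by linarith))
    (rb_of_q (hx 7) (hx 13) (hx 17) (by linarith)) (nt_rb c0 c1 h1) (nt_rb c0 c2 h2)
    (nt_rb c0 c3 h3)

theorem exists_eta : ∃ η : ℝ, 0 < η ∧ ∀ x : ℕ → ℂ, (∀ i, ‖x i‖ ≤ 1) →
    Nt (x 1) (x 2) (x 3) (x 4) → Nt (x 1) (x 2) (x 5) (x 6) → Nt (x 1) (x 2) (x 7) (x 8) →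
    G x ≤ 90 - η := by
  set C : Set (ℕ → ℂ) := (Set.pi Set.univ fun _ => Metric.closedBall (0 : ℂ) 1) ∩
    {x | Nt (x 1) (x 2) (x 3) (x 4) ∧ Nt (x 1) (x 2) (x 5) (x 6) ∧ Nt (x 1) (x 2) (x 7) (x 8)}
    with hC
  have hcl : ∀ i j : ℕ, IsClosed {x : ℕ → ℂ | Nt (x 1) (x 2) (x i) (x j)} := by
    intro i j
    have : {x : ℕ → ℂ | Nt (x 1) (x 2) (x i) (x j)} =
        {x : ℕ → ℂ | ‖x i - x 2‖ ≤ ‖x i - x 1‖} ∪ {x | ‖x j - x 1‖ ≤ ‖x j - x 2‖} := rfl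
    rw [this]
    exact (isClosed_le (by fun_prop) (by fun_prop)).union (isClosed_le (by fun_prop) (by fun_prop))
  have hcomp : IsCompact C := by
    refine IsCompact.inter_right (isCompact_univ_pi fun _ => isCompact_closedBall _ _) ?_
    exact (hcl 3 4).inter ((hcl 5 6).inter (hcl 7 8))
  have hcont : Continuous G := by
    unfold G tg q
    simp only [List.map_cons, List.map_nil, List.sum_cons, List.sum_nil]
    fun_prop
  have hmem : ∀ x : ℕ → ℂ, x ∈ C ↔ (∀ i, ‖x i‖ ≤ 1) ∧ Nt (x 1) (x 2) (x 3) (x 4) ∧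
      Nt (x 1) (x 2) (x 5) (x 6) ∧ Nt (x 1) (x 2) (x 7) (x 8) := by
    intro x
    rw [hC]
    simp [Set.mem_pi]
  rcases C.eq_empty_or_nonempty with he | hne
  · refine ⟨1, one_pos, fun x h1 h2 h3 h4 => ?_⟩
    have : x ∈ C := (hmem x).2 ⟨h1, h2, h3, h4⟩
    rw [he] at this
    exact absurd this (Set.notMem_empty x)
  · obtain ⟨x0, hx0, hmax⟩ := hcomp.exists_isMaxOn hne hcont.continuousOn
    obtain ⟨a1, a2, a3, a4⟩ := (hmem x0).1 hx0
    refine ⟨90 - G x0, by linarith [G_lt a1 a2 a3 a4], fun x h1 h2 h3 h4 => ?_⟩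
    have := hmax ((hmem x).2 ⟨h1, h2, h3, h4⟩)
    simp only [Set.mem_ofPred_eq] at this
    linarith

end Pool.Agent.H243R3.MU
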