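import Pool.Agent.NPC.Defs

/-!
# The complex structured singular value: definitions
-/

set_option autoImplicit false

namespace Pool.Agent.H243R3.MU

open Pool.Agent.NPC
open scoped Matrix.Norms.L2Operator

/-- The index set of the matrices for the block structure `K = (k_1, …, k_m)`: the pairs consisting
of a block `i` and a position `a < k_i` inside the block. -/
abbrev Ix (K : List ℕ) : Type := Σ i : Fin K.length, Fin (K.get i)

/-- The number of the row (or column) with index `p`: `k_1 + … + k_{i-1} + a` for `p = (i, a)`. -/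
def pos {K : List ℕ} (p : Ix K) : ℕ := (K.take p.1).sum + p.2

/-- The entry of the matrix `M` over `ℚ(i)` in row `i` and column `j`; the pair `(a, b)` stands for
`a + b i`. -/
noncomputable def entry (M : List (List (ℚ × ℚ))) (i j : ℕ) : ℂ :=
  (((M.getD i []).getD j (0, 0)).1 : ℂ) + (((M.getD i []).getD j (0, 0)).2 : ℂ) * Complex.I

/-- The complex matrix given by the list `M` of its rows. -/
noncomputable def toMat (K : List ℕ) (M : List (List (ℚ × ℚ))) : Matrix (Ix K) (Ix K) ℂ :=
  fun p q => entry M (pos p) (pos q)

/-- The set `B(K)`: block-diagonal matrices whose blocks have spectral norm at most `1`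
(`‖ ‖` is the operator norm for the Euclidean norm). -/
def Blocks (K : List ℕ) : Set (Matrix (Ix K) (Ix K) ℂ) :=
  {Δ | ∃ D : ∀ i : Fin K.length, Matrix (Fin (K.get i)) (Fin (K.get i)) ℂ,
    (∀ i, ‖D i‖ ≤ 1) ∧ Δ = Matrix.blockDiagonal' D}

/-- The complex structured singular value `μ_K(M)`. -/
noncomputable def mu (K : List ℕ) (M : Matrix (Ix K) (Ix K) ℂ) : ℝ :=
  sInf {ρ : ℝ | 0 < ρ ∧ ∀ Δ ∈ Blocks K, (1 - (ρ : ℂ)⁻¹ • (Δ * M)).det ≠ 0}

/-- `m` is an `r`-approximation of `μ` (an upper or a lower one). -/
def IsApprox (r μ m : ℝ) : Prop := (μ ≤ m ∧ m ≤ (1 + r) * μ) ∨ (μ / (1 + r) ≤ m ∧ m ≤ μ)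

/-- Instances: a matrix with entries in `ℚ(i)`, given by the list of its rows, and a block
structure. -/
abbrev Inst : Type := List (List (ℚ × ℚ)) × List ℕ

/-- Valid instances: `K` is a nonempty list of positive integers with sum `n` and `M` is an
`n × n` matrix. -/
def Valid (z : Inst) : Prop :=
  z.2 ≠ [] ∧ (∀ k ∈ z.2, 0 < k) ∧ z.1.length = z.2.sum ∧ ∀ row ∈ z.1, row.length = z.2.sum

/-- The complex structured singular value of an instance. -/
noncomputable def muI (z : Inst) : ℝ := mu z.2 (toMat z.2 z.1)

/-- A polynomial-time reduction of the language `L` to the `r`-approximation problem for complex `μ`: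
a polynomial-time function `f` maps bit strings to (codes of) valid instances with property `P`, and
from `x` and any rational `r`-approximation of the complex structured singular value of the instance
`f x` a polynomial-time test `g` finds out whether `x ∈ L`. -/
def ReducesToApprox (P : Inst → Prop) (r : ℝ) (L : Set (List Bool)) : Prop :=
  ∃ (f : List Bool → Inst) (g : List Bool → List Bool), PolyTime (fun x => bits (f x)) ∧
    PolyTime g ∧ (∀ x, Valid (f x) ∧ P (f x)) ∧
    ∀ (x : List Bool) (q : ℚ), IsApprox r (muI (f x)) q →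
      (x ∈ L ↔ g (pairBits x (bits q)) = [true])

/-- The `r`-approximation problem for complex `μ`, restricted to instances with property `P`, is
NP-hard. -/
def ApproxNPHard (P : Inst → Prop) (r : ℝ) : Prop :=
  ∀ L : Set (List Bool), InNP L → ReducesToApprox P r L

/-- All blocks have size `1`, and the entries of the matrix are integers. -/
def ScalarInteger (z : Inst) : Prop :=
  (∀ k ∈ z.2, k = 1) ∧ ∀ row ∈ z.1, ∀ e ∈ row, ∃ a : ℤ, e = ((a : ℚ), 0)

end Pool.Agent.H243R3.MU
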