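import Pool.Agent.H243R3.MU.Cub
import Pool.Agent.H243R3.TP.Defs

/-!
# The weighted graph of a formula
-/

set_option autoImplicit false

namespace Pool.Agent.H243R3.MU

open Pool.Agent.H243R3.TP

/-- The index of the first occurrence. -/
def ix (v : ℕ) (L : List ℕ) : ℕ :=
  ((List.range L.length).filter fun i => decide (L.getD i 0 = v)).head?.getD 0

theorem ix_spec {v : ℕ} {L : List ℕ} (h : v ∈ L) : ix v L < L.length ∧ L.getD (ix v L) 0 = v := by
  obtain ⟨i, hi, he⟩ := List.getElem_of_mem h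
  have hm : i ∈ (List.range L.length).filter fun i => decide (L.getD i 0 = v) := by
    rw [List.mem_filter, List.mem_range]
    refine ⟨hi, ?_⟩
    rw [List.getD_eq_getElem?_getD, List.getElem?_eq_getElem hi, he]
    simp
  unfold ix
  have key : ∀ l : List ℕ, l ≠ [] → l.head?.getD 0 ∈ l := by
    intro l hl
    cases l with
    | nil => exact absurd rfl hl
    | cons a l => simp
  have h2 := key _ (List.ne_nil_of_mem hm)
  rw [List.mem_filter, List.mem_range] at h2
  exact ⟨h2.1, by simpa using h2.2⟩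

/-- The vertex of a literal (`b = true`) or of its negation (`b = false`). -/
def lv (L : List ℕ) (l : Lit) (b : Bool) : ℕ := 3 + 2 * ix l.1 L + (if l.2 = b then 0 else 1)

/-- The vertices of the gadget of the clause `c` with number `j`. -/
def vi (L : List ℕ) (j : ℕ) (c : Clause) (k : ℕ) : ℕ :=
  if k < 3 then k
  else if k = 3 then lv L c.1 true else if k = 4 then lv L c.1 false
  else if k = 5 then lv L c.2.1 true else if k = 6 then lv L c.2.1 false
  else if k = 7 then lv L c.2.2 true else if k = 8 then lv L c.2.2 false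
  else 3 + 2 * L.length + 9 * j + (k - 9)

/-- The triangles. -/
def tri (φ : List Clause) : List (ℕ × ℕ × ℕ) := φ.zipIdx.flatMap fun p => tg.map fun t =>
  (vi (occ φ) p.2 p.1 t.1, vi (occ φ) p.2 p.1 t.2.1, vi (occ φ) p.2 p.1 t.2.2)

/-- The edges. -/
def edg (φ : List Clause) : List (ℕ × ℕ) :=
  (tri φ).flatMap fun t => [(t.1, t.2.1), (t.2.1, t.2.2), (t.2.2, t.1)]

/-- The number of vertices. -/
def nv (φ : List Clause) : ℕ := 3 + 2 * (occ φ).length + 9 * φ.length

/-- The quadratic form of a graph. -/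
noncomputable def Q (E : List (ℕ × ℕ)) (x : ℕ → ℂ) : ℝ := (E.map fun e => ‖x e.1 - x e.2‖ ^ 2).sum

theorem Q_edg (φ : List Clause) (x : ℕ → ℂ) : Q (edg φ) x =
    (φ.zipIdx.map fun p => G fun k => x (vi (occ φ) p.2 p.1 k)).sum := by
  have h1 : ∀ T : List (ℕ × ℕ × ℕ), Q (T.flatMap fun t =>
      [(t.1, t.2.1), (t.2.1, t.2.2), (t.2.2, t.1)]) x =
      (T.map fun t => q (x t.1) (x t.2.1) (x t.2.2)).sum := by
    intro T
    induction T with
    | nil => simp [Q]
    | cons t T ih =>
      unfold Q at ih ⊢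
      simp only [List.flatMap_cons, List.map_append, List.sum_append, List.map_cons, List.map_nil,
        List.sum_cons, List.sum_nil, ih, q]
      ring
  have h2 : ∀ (L : List ℕ) (P : List (Clause × ℕ)), ((P.flatMap fun p => tg.map fun t =>
      (vi L p.2 p.1 t.1, vi L p.2 p.1 t.2.1, vi L p.2 p.1 t.2.2)).map
        fun t => q (x t.1) (x t.2.1) (x t.2.2)).sum =
      (P.map fun p => G fun k => x (vi L p.2 p.1 k)).sum := by
    intro L P
    induction P with
    | nil => rfl
    | cons p P ih =>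
      rw [List.flatMap_cons, List.map_append, List.sum_append, ih, List.map_cons, List.sum_cons,
        List.map_map]
      rfl
  unfold edg tri
  rw [h1, h2]

theorem sum_bound {β : Type} (l : List β) (g : β → ℝ) (s : β → Bool) (a η : ℝ)
    (h : ∀ p ∈ l, g p ≤ a ∧ (s p = false → g p ≤ a - η)) :
    (l.map g).sum ≤ a * l.length - η * ((l.length : ℝ) - l.countP s) := by
  induction l with
  | nil => simp
  | cons p l ih =>
    have h1 := ih fun p hp => h p (List.mem_cons_of_mem _ hp)
    obtain ⟨h2, h3⟩ := h p List.mem_cons_self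
    rw [List.map_cons, List.sum_cons, List.length_cons, List.countP_cons]
    cases hs : s p with
    | true => simp only [if_true]; push_cast; linarith
    | false =>
      have := h3 hs
      simp only [Bool.false_eq_true, if_false]
      push_cast
      linarith

/-- **Soundness.** -/
theorem Q_sound {η : ℝ} (hη : ∀ x : ℕ → ℂ, (∀ i, ‖x i‖ ≤ 1) →
    Nt (x 1) (x 2) (x 3) (x 4) → Nt (x 1) (x 2) (x 5) (x 6) → Nt (x 1) (x 2) (x 7) (x 8) →
    G x ≤ 90 - η) (φ : List Clause) (x : ℕ → ℂ) (hx : ∀ i, ‖x i‖ ≤ 1) :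
    ∃ A : List ℕ, Q (edg φ) x ≤ 90 * φ.length - η * ((φ.length : ℝ) - numSat φ A) := by
  classical
  set A := (occ φ).filter fun v => decide (‖x (3 + 2 * ix v (occ φ)) - x 1‖ <
    ‖x (3 + 2 * ix v (occ φ)) - x 2‖) with hA
  refine ⟨A, ?_⟩
  rw [Q_edg]
  have hcl : ∀ c ∈ φ, ∀ j, ¬ ClauseSat A c →
      G (fun k => x (vi (occ φ) j c k)) ≤ 90 - η := by
    intro c hc j hs
    have hl : ∀ l ∈ lits c, Nt (x 1) (x 2) (x (lv (occ φ) l true)) (x (lv (occ φ) l false)) := by
      intro l hl
      have h1 : ¬ LitTrue A l := fun h => hs ⟨l, hl, h⟩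
      have h2 : l.1 ∈ occ φ := List.mem_flatMap.2 ⟨c, hc, List.mem_map.2 ⟨l, hl, rfl⟩⟩
      have h3 : l.1 ∈ A ↔ ‖x (3 + 2 * ix l.1 (occ φ)) - x 1‖ <
          ‖x (3 + 2 * ix l.1 (occ φ)) - x 2‖ := by
        rw [hA, List.mem_filter]
        simp [h2]
      unfold LitTrue at h1
      rw [h3] at h1
      unfold lv Nt
      cases hb : l.2 with
      | true =>
        left
        simp only [hb, iff_true, not_lt] at h1
        simpa using h1
      | false =>
        right
        simp only [hb, Bool.false_eq_true, iff_false, not_not] at h1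
        simpa using h1.le
    refine hη _ (fun i => hx _) ?_ ?_ ?_
    · exact hl c.1 (by simp [lits])
    · exact hl c.2.1 (by simp [lits])
    · exact hl c.2.2 (by simp [lits])
  have key := sum_bound φ.zipIdx (fun p => G fun k => x (vi (occ φ) p.2 p.1 k))
    (fun p => decide (ClauseSat A p.1)) 90 η (by
      rintro ⟨c, j⟩ hp
      have hc : c ∈ φ := by
        rw [List.mem_zipIdx_iff_getElem?] at hp
        exact List.mem_of_getElem? hp
      refine ⟨G_le fun i => hx _, fun hs => hcl c hc j (by simpa using hs)⟩)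
  have e : φ.zipIdx.countP (fun p => decide (ClauseSat A p.1)) = numSat φ A := by
    unfold numSat
    have : (fun p : Clause × ℕ => decide (ClauseSat A p.1)) =
      (fun c => decide (ClauseSat A c)) ∘ Prod.fst := rfl
    rw [this, ← List.countP_map, List.zipIdx_map_fst]
  rw [e, List.length_zipIdx] at key
  exact key

/-! ### Completeness -/

/-- The cube roots of unity. -/
noncomputable def cv (k : ℕ) : ℂ :=
  if k = 0 then 1 else if k = 1 then ⟨-1 / 2, Real.sqrt 3 / 2⟩ else ⟨-1 / 2, -(Real.sqrt 3 / 2)⟩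

theorem norm_cv (k : ℕ) : ‖cv k‖ = 1 := by
  have h3 : Real.sqrt 3 * Real.sqrt 3 = 3 := Real.mul_self_sqrt (by norm_num)
  have h : ‖cv k‖ ^ 2 = 1 := by
    rw [Complex.sq_norm, Complex.normSq_apply]
    unfold cv
    split_ifs
    · simp
    · show (-1 / 2 : ℝ) * (-1 / 2) + (Real.sqrt 3 / 2) * (Real.sqrt 3 / 2) = 1
      linarith
    · show (-1 / 2 : ℝ) * (-1 / 2) + (-(Real.sqrt 3 / 2)) * (-(Real.sqrt 3 / 2)) = 1
      linarith
  have := norm_nonneg (cv k)
  nlinarith

theorem cv_sum : cv 0 + cv 1 + cv 2 = 0 := by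
  unfold cv
  apply Complex.ext
  · simp
    norm_num
  · simp

theorem q_cv {a b c : ℕ} (ha : a < 3) (hb : b < 3) (hc : c < 3) (h1 : a ≠ b) (h2 : b ≠ c)
    (h3 : c ≠ a) : q (cv a) (cv b) (cv c) = 9 := by
  refine Rb.q ⟨norm_cv _, norm_cv _, norm_cv _, ?_⟩
  have h := cv_sum
  interval_cases a <;> interval_cases b <;> interval_cases c <;>
    first | (exfalso; omega) | (linear_combination h)

/-- The colours of the vertices of the gadget, for given truth values. -/
def colr (s1 s2 s3 : Bool) (k : ℕ) : ℕ :=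
  let u1 := if s1 then 1 else 2
  let u2 := if s2 then 1 else 2
  let u3 := if s3 then 1 else 2
  let p1 := if s1 then 2 else 0
  let p2 := if s1 then 0 else if s2 then 2 else 1
  let o1 := if s1 || s2 then 1 else 2
  let q1 := if s3 then 0 else 2
  let q2 := if s3 then 2 else 0
  if k < 3 then k
  else if k = 3 then u1 else if k = 4 then 3 - u1
  else if k = 5 then u2 else if k = 6 then 3 - u2
  else if k = 7 then u3 else if k = 8 then 3 - u3
  else if k = 9 then p1 else if k = 10 then p2 else if k = 11 then o1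
  else if k = 12 then q1 else if k = 13 then q2
  else if k = 14 then 3 - u1 - p1 else if k = 15 then 3 - u2 - p2
  else if k = 16 then 3 - o1 - q1 else 3 - u3 - q2

theorem colr_ok : ∀ s1 s2 s3 : Bool, (s1 || s2 || s3) = true → ∀ t ∈ tg,
    colr s1 s2 s3 t.1 < 3 ∧ colr s1 s2 s3 t.2.1 < 3 ∧ colr s1 s2 s3 t.2.2 < 3 ∧
    colr s1 s2 s3 t.1 ≠ colr s1 s2 s3 t.2.1 ∧ colr s1 s2 s3 t.2.1 ≠ colr s1 s2 s3 t.2.2 ∧
    colr s1 s2 s3 t.2.2 ≠ colr s1 s2 s3 t.1 := by
  decide

theorem tg_lt : ∀ t ∈ tg, t.1 < 18 ∧ t.2.1 < 18 ∧ t.2.2 < 18 := by decide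

theorem G_colr {x : ℕ → ℂ} {s1 s2 s3 : Bool} (hs : (s1 || s2 || s3) = true)
    (h : ∀ k < 18, x k = cv (colr s1 s2 s3 k)) : G x = 90 := by
  unfold G
  have : tg.map (fun t => q (x t.1) (x t.2.1) (x t.2.2)) = tg.map fun _ => 9 := by
    refine List.map_congr_left fun t ht => ?_
    obtain ⟨a1, a2, a3⟩ := tg_lt t ht
    obtain ⟨b1, b2, b3, b4, b5, b6⟩ := colr_ok s1 s2 s3 hs t ht
    rw [h _ a1, h _ a2, h _ a3]
    exact q_cv b1 b2 b3 b4 b5 b6
  rw [this]
  simp [tg]
  norm_num

/-- The truth value of a literal. -/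
def tv (A : List ℕ) (l : Lit) : Bool := decide (LitTrue A l)

/-- The colours of the vertices, for an assignment. -/
def clr (φ : List Clause) (A : List ℕ) (i : ℕ) : ℕ :=
  if i < 3 then i
  else if i < 3 + 2 * (occ φ).length then
    (if decide ((occ φ).getD ((i - 3) / 2) 0 ∈ A) = decide ((i - 3) % 2 = 0) then 1 else 2)
  else colr (tv A (φ.getD ((i - (3 + 2 * (occ φ).length)) / 9) default).1)
    (tv A (φ.getD ((i - (3 + 2 * (occ φ).length)) / 9) default).2.1)
    (tv A (φ.getD ((i - (3 + 2 * (occ φ).length)) / 9) default).2.2)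
    ((i - (3 + 2 * (occ φ).length)) % 9 + 9)

theorem clr_lv (φ : List Clause) (A : List ℕ) {c : Clause} (hc : c ∈ φ) {l : Lit}
    (hl : l ∈ lits c) : clr φ A (lv (occ φ) l true) = (if tv A l then 1 else 2) ∧
      clr φ A (lv (occ φ) l false) = 3 - (if tv A l then 1 else 2) := by
  have h2 : l.1 ∈ occ φ := List.mem_flatMap.2 ⟨c, hc, List.mem_map.2 ⟨l, hl, rfl⟩⟩
  obtain ⟨h3, h4⟩ := ix_spec h2
  have key : ∀ b : ℕ, b < 2 → clr φ A (3 + 2 * ix l.1 (occ φ) + b) =
      if decide (l.1 ∈ A) = decide (b = 0) then 1 else 2 := by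
    intro b hb
    unfold clr
    have e1 : ¬ (3 + 2 * ix l.1 (occ φ) + b < 3) := by omega
    have e2 : 3 + 2 * ix l.1 (occ φ) + b < 3 + 2 * (occ φ).length := by omega
    have e3 : (3 + 2 * ix l.1 (occ φ) + b - 3) / 2 = ix l.1 (occ φ) := by omega
    have e4 : (3 + 2 * ix l.1 (occ φ) + b - 3) % 2 = b := by omega
    rw [if_neg e1, if_pos e2, e3, e4, h4]
  have htv : tv A l = decide (l.1 ∈ A ↔ l.2 = true) := rfl
  rw [htv]
  unfold lv
  cases hb : l.2 with
  | true =>
    simp only [if_true, Bool.true_eq_false, if_false]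
    rw [key 0 (by omega), key 1 (by omega)]
    by_cases hm : l.1 ∈ A <;> simp [hm]
  | false =>
    simp only [Bool.false_eq_true, if_false, if_true]
    rw [key 0 (by omega), key 1 (by omega)]
    by_cases hm : l.1 ∈ A <;> simp [hm]

/-- **Completeness.** -/
theorem Q_complete (φ : List Clause) (A : List ℕ) (hA : numSat φ A = φ.length) :
    Q (edg φ) (fun i => cv (clr φ A i)) = 90 * φ.length := by
  rw [Q_edg]
  have hsat : ∀ c ∈ φ, ClauseSat A c := by
    have := List.countP_eq_length.1 hA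
    exact fun c hc => by simpa using this c hc
  have : φ.zipIdx.map (fun p => G fun k => cv (clr φ A (vi (occ φ) p.2 p.1 k))) =
      φ.zipIdx.map fun _ => (90 : ℝ) := by
    refine List.map_congr_left ?_
    rintro ⟨c, j⟩ hp
    rw [List.mem_zipIdx_iff_getElem?] at hp
    have hc : c ∈ φ := List.mem_of_getElem? hp
    simp only at hp ⊢
    refine G_colr (s1 := tv A c.1) (s2 := tv A c.2.1) (s3 := tv A c.2.2) ?_ fun k hk => ?_
    · obtain ⟨l, hl, ht⟩ := hsat c hc
      have ht' : tv A l = true := by simpa [tv] using ht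
      simp only [lits, List.mem_cons, List.not_mem_nil, or_false] at hl
      rcases hl with rfl | rfl | rfl <;> simp [ht']
    · congr 1
      have l1 := clr_lv φ A hc (l := c.1) (by simp [lits])
      have l2 := clr_lv φ A hc (l := c.2.1) (by simp [lits])
      have l3 := clr_lv φ A hc (l := c.2.2) (by simp [lits])
      by_cases h9 : k < 9
      · interval_cases k
        · rfl
        · rfl
        · rfl
        · exact l1.1
        · exact l1.2
        · exact l2.1
        · exact l2.2
        · exact l3.1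
        · exact l3.2
      · have e0 : vi (occ φ) j c k = 3 + 2 * (occ φ).length + 9 * j + (k - 9) := by
          unfold vi
          rw [if_neg (by omega), if_neg (by omega), if_neg (by omega), if_neg (by omega),
            if_neg (by omega), if_neg (by omega), if_neg (by omega)]
        rw [e0]
        unfold clr
        rw [if_neg (by omega), if_neg (by omega)]
        have e1 : (3 + 2 * (occ φ).length + 9 * j + (k - 9) - (3 + 2 * (occ φ).length)) / 9 = j := by
          omega
        have e2 : (3 + 2 * (occ φ).length + 9 * j + (k - 9) - (3 + 2 * (occ φ).length)) % 9 + 9 =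
            k := by omega
        rw [e1, e2, List.getD_eq_getElem?_getD, hp]
        rfl
  rw [this]
  simp
  ring

theorem vi_lt {φ : List Clause} {c : Clause} {j : ℕ} (hc : c ∈ φ) (hj : j < φ.length) {k : ℕ}
    (hk : k < 18) : vi (occ φ) j c k < nv φ := by
  have hlv : ∀ l ∈ lits c, ∀ b, lv (occ φ) l b < nv φ := by
    intro l hl b
    have h2 : l.1 ∈ occ φ := List.mem_flatMap.2 ⟨c, hc, List.mem_map.2 ⟨l, hl, rfl⟩⟩
    have h3 := (ix_spec h2).1
    unfold lv nv
    split_ifs <;> omega
  have m1 : c.1 ∈ lits c := by simp [lits]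
  have m2 : c.2.1 ∈ lits c := by simp [lits]
  have m3 : c.2.2 ∈ lits c := by simp [lits]
  unfold vi
  split_ifs
  · unfold nv; omega
  · exact hlv _ m1 _
  · exact hlv _ m1 _
  · exact hlv _ m2 _
  · exact hlv _ m2 _
  · exact hlv _ m3 _
  · exact hlv _ m3 _
  · unfold nv; omega

theorem edg_lt {φ : List Clause} {e : ℕ × ℕ} (he : e ∈ edg φ) : e.1 < nv φ ∧ e.2 < nv φ := by
  unfold edg tri at he
  rw [List.mem_flatMap] at he
  obtain ⟨t, ht, he⟩ := he
  rw [List.mem_flatMap] at ht
  obtain ⟨⟨c, j⟩, hp, ht⟩ := ht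
  rw [List.mem_map] at ht
  obtain ⟨s, hs, rfl⟩ := ht
  rw [List.mem_zipIdx_iff_getElem?] at hp
  have hc : c ∈ φ := List.mem_of_getElem? hp
  have hj : j < φ.length := by
    by_contra hge
    rw [List.getElem?_eq_none (by simpa using hge)] at hp
    exact absurd hp (by simp)
  obtain ⟨a1, a2, a3⟩ := tg_lt s hs
  have b1 := vi_lt hc hj a1
  have b2 := vi_lt hc hj a2
  have b3 := vi_lt hc hj a3
  simp only [List.mem_cons, List.not_mem_nil, or_false] at he
  rcases he with rfl | rfl | rfl
  · exact ⟨b1, b2⟩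
  · exact ⟨b2, b3⟩
  · exact ⟨b3, b1⟩

end Pool.Agent.H243R3.MU
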