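import Pool.Agent.H243R3.MU.Bound
import Pool.Agent.H243R3.PCP.ApxMain
import Pool.Agent.H243R3.PCP.Gap
import Pool.Agent.H687R2.IntPoly

/-!
# Approximating the complex structured singular value is NP-hard
-/

set_option autoImplicit false

namespace Pool.Agent.NPC.DP

open Pool.Agent.H243R3.MU

open H243R3.TP (Clause lits numSat occ)

variable {α : Type} [TEnc α]

theorem poly_occ {φ : α → List Clause} (h : Poly φ) : Poly (fun a => occ (φ a)) := by
  unfold H243R3.TP.occ
  refine Poly.flatMap (F := fun _ (c : Clause) => (lits c).map Prod.fst) h ?_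
  have hc : Poly (fun p : α × Clause => p.2) := Poly.snd Poly.id
  exact Poly.cons (Poly.fst (Poly.fst hc)) (Poly.cons (Poly.fst (Poly.fst (Poly.snd hc)))
    (Poly.cons (Poly.fst (Poly.snd (Poly.snd hc))) (Poly.const [])))

theorem poly_ix {v : α → ℕ} {L : α → List ℕ} (hv : Poly v) (hL : Poly L) :
    Poly (fun a => ix (v a) (L a)) := by
  unfold ix
  refine Poly.head?_getD ?_ 0
  refine Poly.filter (p := fun a i => decide ((L a).getD i 0 = v a)) (Poly.range_length hL) ?_
  exact Poly.decide_eq (Poly.getD (hL.comp (Poly.fst Poly.id)) (Poly.snd Poly.id) (Poly.const 0))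
    (hv.comp (Poly.fst Poly.id))

theorem poly_lv {L : α → List ℕ} {l : α → H243R3.TP.Lit} (hL : Poly L) (hl : Poly l) (b : Bool) :
    Poly (fun a => lv (L a) (l a) b) := by
  unfold lv
  exact Poly.add (Poly.add (Poly.const _) (Poly.mul (Poly.const _) (poly_ix (Poly.fst hl) hL)))
    (Poly.ite (Poly.decide_eq (Poly.snd hl) (Poly.const _)) (Poly.const _) (Poly.const _))

theorem poly_vi {L : α → List ℕ} {j : α → ℕ} {c : α → Clause} (hL : Poly L) (hj : Poly j)
    (hc : Poly c) (k : ℕ) : Poly (fun a => vi (L a) (j a) (c a) k) := by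
  unfold vi
  split_ifs
  · exact Poly.const _
  · exact poly_lv hL (Poly.fst hc) _
  · exact poly_lv hL (Poly.fst hc) _
  · exact poly_lv hL (Poly.fst (Poly.snd hc)) _
  · exact poly_lv hL (Poly.fst (Poly.snd hc)) _
  · exact poly_lv hL (Poly.snd (Poly.snd hc)) _
  · exact poly_lv hL (Poly.snd (Poly.snd hc)) _
  · exact Poly.add (Poly.add (Poly.add (Poly.const _) (Poly.mul (Poly.const _) (Poly.length hL)))
      (Poly.mul (Poly.const _) hj)) (Poly.const _)

theorem poly_tri {φ : α → List Clause} (h : Poly φ) : Poly (fun a => tri (φ a)) := by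
  unfold tri
  refine Poly.flatMap (F := fun a (p : Clause × ℕ) => tg.map fun t =>
    (vi (occ (φ a)) p.2 p.1 t.1, vi (occ (φ a)) p.2 p.1 t.2.1, vi (occ (φ a)) p.2 p.1 t.2.2))
    (Poly.zipIdx h) ?_
  have hO : Poly (fun p : α × Clause × ℕ => occ (φ p.1)) := (poly_occ h).comp (Poly.fst Poly.id)
  have hc : Poly (fun p : α × Clause × ℕ => p.2.1) := Poly.fst (Poly.snd Poly.id)
  have hi : Poly (fun p : α × Clause × ℕ => p.2.2) := Poly.snd (Poly.snd Poly.id)
  refine poly_map_const _ fun t _ => ?_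
  exact Poly.pair (poly_vi hO hi hc _) (Poly.pair (poly_vi hO hi hc _) (poly_vi hO hi hc _))

theorem poly_edg {φ : α → List Clause} (h : Poly φ) : Poly (fun a => edg (φ a)) := by
  unfold edg
  refine Poly.flatMap (F := fun _ (t : ℕ × ℕ × ℕ) =>
    [(t.1, t.2.1), (t.2.1, t.2.2), (t.2.2, t.1)]) (poly_tri h) ?_
  have h1 : Poly (fun p : α × ℕ × ℕ × ℕ => p.2.1) := Poly.fst (Poly.snd Poly.id)
  have h2 : Poly (fun p : α × ℕ × ℕ × ℕ => p.2.2.1) := Poly.fst (Poly.snd (Poly.snd Poly.id))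
  have h3 : Poly (fun p : α × ℕ × ℕ × ℕ => p.2.2.2) := Poly.snd (Poly.snd (Poly.snd Poly.id))
  exact Poly.cons (Poly.pair h1 h2) (Poly.cons (Poly.pair h2 h3) (Poly.cons (Poly.pair h3 h1)
    (Poly.const [])))

theorem upoly_nv {φ : α → List Clause} (h : Poly φ) : UPoly (fun a => nv (φ a)) := by
  unfold nv
  exact UPoly.add (UPoly.add (UPoly.const _) (UPoly.mul (UPoly.const _)
    (UPoly.length (poly_occ h)))) (UPoly.mul (UPoly.const _) (UPoly.length h))

theorem poly_iv {e : α → ℕ × ℕ} {i : α → ℕ} (he : Poly e) (hi : Poly i) :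
    Poly (fun a => iv (e a) (i a)) := by
  unfold iv
  exact Poly.isub (Poly.ite (Poly.decide_eq hi (Poly.fst he)) (Poly.const _) (Poly.const _))
    (Poly.ite (Poly.decide_eq hi (Poly.snd he)) (Poly.const _) (Poly.const _))

theorem poly_lap {E : α → List (ℕ × ℕ)} {i j : α → ℕ} (hE : Poly E) (hi : Poly i) (hj : Poly j) :
    Poly (fun a => lap (E a) (i a) (j a)) := by
  unfold lap
  refine Poly.isum (Poly.map (F := fun a e => iv e (i a) * iv e (j a)) hE ?_)
  exact Poly.imul (poly_iv (Poly.snd Poly.id) (hi.comp (Poly.fst Poly.id)))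
    (poly_iv (Poly.snd Poly.id) (hj.comp (Poly.fst Poly.id)))

theorem poly_me {E : α → List (ℕ × ℕ)} {N r c : α → ℕ} (hE : Poly E) (hN : Poly N) (hr : Poly r)
    (hc : Poly c) : Poly (fun a => me (E a) (N a) (r a) (c a)) := by
  unfold me
  have h2 : Poly (fun a => 2 * N a) := Poly.mul (Poly.const _) hN
  exact Poly.ite (Poly.decide_lt hr hN) (Poly.ite (Poly.decide_lt hc hN) (Poly.const _)
    (Poly.ite (Poly.decide_lt hc h2) (poly_lap hE hr (Poly.sub hc hN)) (Poly.const _)))
    (Poly.ite (Poly.decide_lt hr h2) (Poly.ite (Poly.decide_eq hc h2) (Poly.const _)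
      (Poly.const _)) (Poly.ite (Poly.decide_lt hc hN) (Poly.const _) (Poly.const _)))

theorem poly_intRat {z : α → ℤ} (hz : Poly z) : Poly (fun a => ((z a : ℤ) : ℚ)) := by
  have h : Poly (fun a => ((z a, 1) : ℤ × ℕ)) := Poly.pair hz (Poly.const 1)
  exact h

theorem poly_mat {E : α → List (ℕ × ℕ)} {N : α → ℕ} (hE : Poly E) (hN : UPoly N) :
    Poly (fun a => mat (E a) (N a)) := by
  unfold mat
  have hr : Poly (fun a => List.range (2 * N a + 1)) :=
    (UPoly.add (UPoly.mul (UPoly.const 2) hN) (UPoly.const 1)).range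
  refine Poly.map (F := fun a r => (List.range (2 * N a + 1)).map fun c =>
    ((me (E a) (N a) r c : ℚ), (0 : ℚ))) hr ?_
  refine Poly.map (F := fun (p : α × ℕ) c => ((me (E p.1) (N p.1) p.2 c : ℚ), (0 : ℚ)))
    (hr.comp (Poly.fst Poly.id)) ?_
  exact Poly.pair (poly_intRat (poly_me (hE.comp (Poly.fst (Poly.fst Poly.id)))
    (hN.toPoly.comp (Poly.fst (Poly.fst Poly.id))) (Poly.snd (Poly.fst Poly.id))
    (Poly.snd Poly.id))) (Poly.const _)

theorem poly_ins {E : α → List (ℕ × ℕ)} {N : α → ℕ} (hE : Poly E) (hN : UPoly N) :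
    Poly (fun a => ins (E a) (N a)) := by
  unfold ins
  have hr : Poly (fun a => List.range (2 * N a + 1)) :=
    (UPoly.add (UPoly.mul (UPoly.const 2) hN) (UPoly.const 1)).range
  refine Poly.pair (poly_mat hE hN) ?_
  refine (Poly.map (F := fun _ (_ : ℕ) => 1) hr (Poly.const 1)).congr fun a => ?_
  rw [List.map_const', List.length_range]

/-- The test. -/
def tsm (sn sd : ℕ) (p : List Clause × Option (ℤ × ℕ)) : Bool :=
  match p.2 with
  | none => false
  | some z => decide (((sn * p.1.length * z.2 ^ 3 : ℕ) : ℤ) < z.1 ^ 3 * (sd : ℤ))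

theorem poly_tsm (sn sd : ℕ) : Poly (tsm sn sd) := by
  have h : Poly (fun p : (List Clause × Option (ℤ × ℕ)) × ℤ × ℕ =>
      decide (((sn * p.1.1.length * p.2.2 ^ 3 : ℕ) : ℤ) < p.2.1 ^ 3 * (sd : ℤ))) := by
    have hd : Poly (fun p : (List Clause × Option (ℤ × ℕ)) × ℤ × ℕ => p.2.2) :=
      Poly.snd (Poly.snd Poly.id)
    have hn : Poly (fun p : (List Clause × Option (ℤ × ℕ)) × ℤ × ℕ => p.2.1) :=
      Poly.fst (Poly.snd Poly.id)
    have hl : Poly (fun p : (List Clause × Option (ℤ × ℕ)) × ℤ × ℕ => p.1.1.length) :=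
      Poly.length (Poly.fst (Poly.fst Poly.id))
    refine Poly.ilt (Poly.natCast (Poly.mul (Poly.mul (Poly.const sn) hl) ?_))
      (Poly.imul ?_ (Poly.const _))
    · exact (Poly.mul (Poly.mul hd hd) hd).congr fun p => by ring
    · exact (Poly.imul (Poly.imul hn hn) hn).congr fun p => by ring
  refine (Poly.optCases (o := fun p : List Clause × Option (ℤ × ℕ) => p.2) (g := fun _ => false)
    (h := fun p z => decide (((sn * p.1.length * z.2 ^ 3 : ℕ) : ℤ) < z.1 ^ 3 * (sd : ℤ)))
    (Poly.snd Poly.id) (Poly.const _) h).congr fun p => ?_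
  rcases p with ⟨a, _ | z⟩ <;> rfl

theorem exists_r {b s : ℝ} (hb : 0 < b) (h1 : b < s) (h2 : s < 90) :
    ∃ r : ℝ, 0 < r ∧ (1 + r) ^ 3 * b < s ∧ (1 + r) ^ 3 * s < 90 := by
  have hs : 0 < s := hb.trans h1
  set κ := min (s / b) (90 / s) with hκ
  have hκ1 : 1 < κ := lt_min ((one_lt_div hb).2 h1) ((one_lt_div hs).2 h2)
  set r := min 1 ((κ - 1) / 8) with hr
  have r0 : 0 < r := lt_min one_pos (by linarith)
  have r1 : r ≤ 1 := min_le_left _ _
  have r2 : r ≤ (κ - 1) / 8 := min_le_right _ _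
  have a1 := mul_nonneg r0.le (sub_nonneg.2 r1)
  have a2 := mul_nonneg (mul_nonneg r0.le r0.le) (sub_nonneg.2 r1)
  have r3 : (1 + r) ^ 3 < κ := by
    nlinarith
  have k1 : κ * b ≤ s := (le_div_iff₀ hb).1 (min_le_left _ _)
  have k2 : κ * s ≤ 90 := (le_div_iff₀ hs).1 (min_le_right _ _)
  exact ⟨r, r0, by nlinarith, by nlinarith⟩

theorem exists_cbrt {t : ℝ} (ht : 0 < t) : ∃ ρ : ℝ, 0 < ρ ∧ ρ ^ 3 = t := by
  refine ⟨t ^ ((3 : ℕ) : ℝ)⁻¹, Real.rpow_pos_of_pos ht _, ?_⟩
  exact Real.rpow_inv_natCast_pow ht.le (by norm_num)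

/-- **Approximating the complex structured singular value within some constant factor is
NP-hard.** -/
theorem mu_hard : ∃ r : ℝ, 0 < r ∧ ApproxNPHard ScalarInteger r := by
  obtain ⟨η₀, hη₀, hη⟩ := exists_eta
  set η := min η₀ 1 with hηd
  have hη1 : 0 < η := lt_min hη₀ one_pos
  have hη2 : η ≤ 1 := min_le_right _ _
  have hη3 : η ≤ η₀ := min_le_left _ _
  have hK : (0 : ℝ) < (K0 : ℝ) + 1 := by positivity
  set b : ℝ := 90 - η / (K0 + 1) with hb
  have hb1 : b < 90 := by
    have : 0 < η / ((K0 : ℝ) + 1) := by positivity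
    rw [hb]; linarith
  have hb2 : 0 < b := by
    have : η / ((K0 : ℝ) + 1) ≤ 1 := by
      rw [div_le_one hK]
      have : (0 : ℝ) ≤ K0 := Nat.cast_nonneg _
      linarith
    rw [hb]; linarith
  obtain ⟨s, hs1, hs2⟩ := exists_rat_btwn hb1
  obtain ⟨b', hb3, hb4⟩ := exists_between hs1
  have hb5 : 0 < b' := hb2.trans hb3
  have hs0 : (0 : ℝ) < (s : ℝ) := hb5.trans hb4
  obtain ⟨r, hr, hr1, hr2⟩ := exists_r hb5 hb4 hs2
  refine ⟨r, hr, fun L hL => ?_⟩
  obtain ⟨f, hf, hf2⟩ := gap3Sat hL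
  have hfP : Poly f := PC.comp (g := f) (f := fun x => x) hf rawOut
  refine ⟨fun x => ins (edg (f x)) (nv (f x)),
    fun y => [tsm s.num.toNat s.den (f (unpair y).1, unbits (ℤ × ℕ) (unpair y).2)],
    ?_, ?_, fun x => ins_valid _ _, fun x q hq => ?_⟩
  · have h0 : PC (fun x : List Bool => x) (bits : H243R3.MU.Inst → List Bool)
        (fun x => ins (edg (f x)) (nv (f x))) :=
      PC.comp (g := fun φ => ins (edg φ) (nv φ)) (f := f)
        (poly_ins (poly_edg Poly.id) (upoly_nv Poly.id)) hf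
    obtain ⟨c, p, h⟩ := h0
    exact PC.toPolyTime ⟨c, p, h⟩
  · refine polyTime_of_poly (Poly.comp (g := tsm s.num.toNat s.den) (poly_tsm _ _) ?_)
    exact Poly.pair (hfP.comp (Poly.fst poly_unpair)) (poly_unbits.comp (Poly.snd poly_unpair))
  · obtain ⟨g1, _, g3, g4⟩ := hf2 x
    have hm : 0 < (f x).length := List.length_pos_iff.2 g1
    have hm' : (0 : ℝ) < (f x).length := by exact_mod_cast hm
    have hE : ∀ e ∈ edg (f x), e.1 < nv (f x) ∧ e.2 < nv (f x) := fun e he => edg_lt he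
    have hdec : unbits (ℤ × ℕ) (bits q) = some (q.num, q.den) :=
      unbits_bits (α := ℤ × ℕ) (q.num, q.den)
    -- the test
    have htest : [tsm s.num.toNat s.den (f (unpair (pairBits x (bits q))).1,
        unbits (ℤ × ℕ) (unpair (pairBits x (bits q))).2)] = [true] ↔
        (s : ℝ) * (f x).length < (q : ℝ) ^ 3 := by
      rw [unpair_pairBits]
      simp only [hdec, tsm, List.cons.injEq, and_true, decide_eq_true_eq]
      have hsn : ((s.num.toNat : ℕ) : ℝ) = (s.num : ℝ) := by
        have : ((s.num.toNat : ℕ) : ℤ) = s.num := Int.toNat_of_nonneg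
          (Rat.num_nonneg.2 (by exact_mod_cast hs0.le))
        exact_mod_cast congrArg (Int.cast : ℤ → ℝ) this
      have hsd : (0 : ℝ) < (s.den : ℝ) := by exact_mod_cast s.den_pos
      have hqd : (0 : ℝ) < (q.den : ℝ) := by exact_mod_cast q.den_pos
      have e1 : (s : ℝ) = (s.num : ℝ) / (s.den : ℝ) := by
        exact_mod_cast (Rat.num_div_den s).symm
      have e2 : (q : ℝ) = (q.num : ℝ) / (q.den : ℝ) := by
        exact_mod_cast (Rat.num_div_den q).symm
      rw [← Int.cast_lt (R := ℝ), e1, e2]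
      push_cast
      rw [hsn, div_pow, div_mul_eq_mul_div, div_lt_div_iff₀ hsd (by positivity)]
    rw [htest]
    have h1r : 0 < 1 + r := by linarith
    constructor
    · intro hx
      obtain ⟨A, _, _, hA⟩ := g3 hx
      obtain ⟨α, hα, hα3⟩ := exists_cbrt (t := 90 * (f x).length) (by positivity)
      have h1 := le_mu hE hα (fun i => cv (H243R3.MU.clr (f x) A i)) (fun i => (norm_cv _).le)
        (by rw [Q_complete (f x) A hA, hα3])
      have h2 : α / (1 + r) ≤ q := by
        rcases hq with hq | hq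
        · refine le_trans ?_ (h1.trans hq.1)
          exact div_le_self hα.le (by linarith)
        · exact (div_le_div_of_nonneg_right h1 h1r.le).trans hq.1
      have h3 : α ≤ q * (1 + r) := (div_le_iff₀ h1r).1 h2
      have h4 : α ^ 3 ≤ (q * (1 + r)) ^ 3 := pow_le_pow_left₀ hα.le h3 3
      rw [hα3, mul_pow] at h4
      have h5 : (1 + r) ^ 3 * ((s : ℝ) * (f x).length) < (1 + r) ^ 3 * (q : ℝ) ^ 3 := by
        have := mul_lt_mul_of_pos_right hr2 hm'
        linarith
      exact lt_of_mul_lt_mul_left h5 (by positivity)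
    · intro hlt
      by_contra hx
      have hQ : ∀ y : ℕ → ℂ, (∀ i, ‖y i‖ ≤ 1) → Q (edg (f x)) y ≤ b * (f x).length := by
        intro y hy
        obtain ⟨A, hA⟩ := Q_sound hη (f x) y hy
        have h1 := g4 hx A
        have h2 : numSat (f x) A ≤ (f x).length := List.countP_le_length
        have h3 : ((f x).length : ℝ) ≤ K0 * (((f x).length : ℝ) - numSat (f x) A) := by
          rw [← Nat.cast_sub h2]
          exact_mod_cast h1
        have h5 : (0 : ℝ) ≤ ((f x).length : ℝ) - numSat (f x) A := by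
          rw [← Nat.cast_sub h2]
          positivity
        have h6 : (η / (K0 + 1)) * (f x).length ≤ η₀ * (((f x).length : ℝ) - numSat (f x) A) := by
          rw [div_mul_eq_mul_div, div_le_iff₀ hK]
          have h7 : η * ((f x).length : ℝ) ≤
              η * (K0 * (((f x).length : ℝ) - numSat (f x) A)) :=
            mul_le_mul_of_nonneg_left h3 hη1.le
          have h8 : η * (((f x).length : ℝ) - numSat (f x) A) ≤
              η₀ * (((f x).length : ℝ) - numSat (f x) A) := mul_le_mul_of_nonneg_right hη3 h5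
          have h9 : (0 : ℝ) ≤ K0 := Nat.cast_nonneg _
          nlinarith [mul_le_mul_of_nonneg_left h8 h9, mul_nonneg hη₀.le h5]
        rw [hb, sub_mul]
        linarith
      obtain ⟨ρ, hρ, hρ3⟩ := exists_cbrt (t := b' * (f x).length) (by positivity)
      have h1 : muI (ins (edg (f x)) (nv (f x))) ≤ ρ :=
        mu_le hE hρ hQ (by rw [hρ3]; exact mul_lt_mul_of_pos_right hb3 hm')
      have h0 := mu_nonneg (ins (edg (f x)) (nv (f x)))
      have h2 : (q : ℝ) ≤ (1 + r) * ρ ∧ 0 ≤ (q : ℝ) := by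
        rcases hq with hq | hq
        · exact ⟨hq.2.trans (mul_le_mul_of_nonneg_left h1 h1r.le), h0.trans hq.1⟩
        · refine ⟨?_, (by positivity : (0 : ℝ) ≤ muI (ins (edg (f x)) (nv (f x))) / (1 + r)).trans
            hq.1⟩
          have := hq.2.trans h1
          nlinarith
      have h3 : (q : ℝ) ^ 3 ≤ ((1 + r) * ρ) ^ 3 := pow_le_pow_left₀ h2.2 h2.1 3
      rw [mul_pow, hρ3] at h3
      have h4 := mul_lt_mul_of_pos_right hr1 hm'
      linarith

end Pool.Agent.NPC.DP
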