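import Pool.Agent.H243R3.MU.Defs
import Pool.Agent.H243R3.MU.Edge

/-!
# The structured singular value of the cyclic matrix of a graph
-/

set_option autoImplicit false

namespace Pool.Agent.H243R3.MU

open scoped Matrix.Norms.L2Operator

/-- incidence -/
def iv (e : ℕ × ℕ) (i : ℕ) : ℤ := (if i = e.1 then 1 else 0) - (if i = e.2 then 1 else 0)

/-- The Laplacian matrix of a graph, given by a list of edges. -/
def lap (E : List (ℕ × ℕ)) (i j : ℕ) : ℤ := (E.map fun e => iv e i * iv e j).sum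

/-- The entries of the cyclic matrix. -/
def me (E : List (ℕ × ℕ)) (N r c : ℕ) : ℤ :=
  if r < N then (if c < N then 0 else if c < 2 * N then lap E r (c - N) else 0)
  else if r < 2 * N then (if c = 2 * N then 1 else 0) else (if c < N then 1 else 0)

/-- The cyclic matrix. -/
def mat (E : List (ℕ × ℕ)) (N : ℕ) : List (List (ℚ × ℚ)) :=
  (List.range (2 * N + 1)).map fun r => (List.range (2 * N + 1)).map fun c =>
    ((me E N r c : ℚ), (0 : ℚ))

/-- The instance. -/
def ins (E : List (ℕ × ℕ)) (N : ℕ) : Inst := (mat E N, List.replicate (2 * N + 1) 1)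

theorem ins_valid (E : List (ℕ × ℕ)) (N : ℕ) : Valid (ins E N) ∧ ScalarInteger (ins E N) := by
  refine ⟨⟨?_, ?_, ?_, ?_⟩, ?_, ?_⟩
  · simp [ins]
  · intro k hk
    simp only [ins] at hk
    rw [List.eq_of_mem_replicate hk]
    exact one_pos
  · simp [ins, mat]
  · intro row hrow
    simp only [ins, mat, List.mem_map] at hrow ⊢
    obtain ⟨r, _, rfl⟩ := hrow
    simp
  · intro k hk
    simp only [ins] at hk
    exact List.eq_of_mem_replicate hk
  · intro row hrow e he
    simp only [ins, mat, List.mem_map] at hrow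
    obtain ⟨r, _, rfl⟩ := hrow
    rw [List.mem_map] at he
    obtain ⟨c, _, rfl⟩ := he
    exact ⟨_, rfl⟩

theorem entry_mat (E : List (ℕ × ℕ)) (N : ℕ) {r c : ℕ} (hr : r < 2 * N + 1)
    (hc : c < 2 * N + 1) : entry (mat E N) r c = (me E N r c : ℂ) := by
  unfold entry mat
  simp only [List.getD_eq_getElem?_getD, List.getElem?_map, List.getElem?_range hr,
    List.getElem?_range hc, Option.map_some, Option.getD_some]
  simp

/-! ### Positions -/

theorem get_one {n : ℕ} (i : Fin (List.replicate n 1).length) :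
    (List.replicate n 1).get i = 1 := by
  simp

theorem pos_eq {n : ℕ} (p : Ix (List.replicate n 1)) : pos p = p.1 := by
  obtain ⟨i, a⟩ := p
  have h1 : (a : ℕ) = 0 := by
    have := a.2
    have h := get_one i
    omega
  have h2 : (i : ℕ) < n := by
    have := i.2
    simpa using this
  unfold pos
  simp only [h1, add_zero]
  rw [List.take_replicate, List.sum_replicate]
  simp
  omega

theorem pos_lt {n : ℕ} (p : Ix (List.replicate n 1)) : pos p < n := by
  rw [pos_eq]
  have := p.1.2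
  simpa using this

theorem pos_inj {n : ℕ} {p p' : Ix (List.replicate n 1)} (h : pos p = pos p') : p = p' := by
  rw [pos_eq, pos_eq] at h
  obtain ⟨i, a⟩ := p
  obtain ⟨i', a'⟩ := p'
  have hi : i = i' := Fin.ext h
  subst hi
  have h1 : (a : ℕ) = 0 := by
    have := a.2
    have h := get_one i
    omega
  have h2 : (a' : ℕ) = 0 := by
    have := a'.2
    have h := get_one i
    omega
  have : a = a' := Fin.ext (h1.trans h2.symm)
  rw [this]

/-- the index with a given position -/
def ofPos {n : ℕ} (j : ℕ) (hj : j < n) : Ix (List.replicate n 1) :=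
  ⟨⟨j, by simpa using hj⟩, ⟨0, by rw [get_one]; exact one_pos⟩⟩

theorem pos_ofPos {n : ℕ} (j : ℕ) (hj : j < n) : pos (ofPos j hj) = j := by
  rw [pos_eq]
  rfl

theorem sum_pos {n : ℕ} (f : ℕ → ℂ) : ∑ p : Ix (List.replicate n 1), f (pos p) =
    ∑ j ∈ Finset.range n, f j := by
  refine Finset.sum_bij (fun p _ => pos p) ?_ ?_ ?_ ?_
  · intro p _
    exact Finset.mem_range.2 (pos_lt p)
  · intro p _ p' _ h
    exact pos_inj h
  · intro j hj
    exact ⟨ofPos j (Finset.mem_range.1 hj), Finset.mem_univ _, pos_ofPos _ _⟩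
  · intro p _
    rfl

/-! ### Determinants and blocks -/

theorem det_zero_iff {ι : Type} [Fintype ι] [DecidableEq ι] (t : ℂ) (δ : ι → ℂ)
    (M : Matrix ι ι ℂ) : (1 - t • (Matrix.diagonal δ * M)).det = 0 ↔
      ∃ v : ι → ℂ, v ≠ 0 ∧ ∀ p, v p = t * (δ p * ∑ q, M p q * v q) := by
  rw [← Matrix.exists_mulVec_eq_zero_iff]
  refine exists_congr fun v => and_congr_right fun _ => ?_
  rw [Matrix.sub_mulVec, Matrix.one_mulVec, Matrix.smul_mulVec, ← Matrix.mulVec_mulVec,
    sub_eq_zero, funext_iff]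
  refine forall_congr' fun p => ?_
  rw [Pi.smul_apply, Matrix.mulVec_diagonal, smul_eq_mul]
  rfl

theorem blocks_diag {K : List ℕ} (hK : ∀ i : Fin K.length, K.get i = 1)
    {Δ : Matrix (Ix K) (Ix K) ℂ} (h : Δ ∈ Blocks K) :
    ∃ δ : Ix K → ℂ, (∀ p, ‖δ p‖ ≤ 1) ∧ Δ = Matrix.diagonal δ := by
  obtain ⟨D, hD, rfl⟩ := h
  have h1 : ∀ i, D i = Matrix.diagonal fun a => D i a a := by
    intro i
    ext a b
    have : a = b := by
      have ha := a.2
      have hb := b.2
      have hk := hK i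
      exact Fin.ext (by omega)
    subst this
    simp
  refine ⟨fun p => D p.1 p.2 p.2, fun p => ?_, ?_⟩
  · have h2 := hD p.1
    rw [h1 p.1, Matrix.l2_opNorm_diagonal] at h2
    exact (norm_le_pi_norm (fun a => D p.1 a a) p.2).trans h2
  · have h3 : Matrix.blockDiagonal' D = Matrix.blockDiagonal' fun i =>
        Matrix.diagonal fun a => D i a a := by
      congr 1
      funext i
      exact h1 i
    rw [h3, Matrix.blockDiagonal'_diagonal]

theorem diag_blocks {K : List ℕ} {δ : Ix K → ℂ} (h : ∀ p, ‖δ p‖ ≤ 1) :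
    Matrix.diagonal δ ∈ Blocks K := by
  refine ⟨fun i => Matrix.diagonal fun a => δ ⟨i, a⟩, fun i => ?_, ?_⟩
  · rw [Matrix.l2_opNorm_diagonal]
    exact (pi_norm_le_iff_of_nonneg zero_le_one).2 fun a => h _
  · rw [Matrix.blockDiagonal'_diagonal]

/-! ### The bilinear form -/

/-- The bilinear form of the Laplacian. -/
def Fm (E : List (ℕ × ℕ)) (y x : ℕ → ℂ) : ℂ :=
  (E.map fun e => (y e.1 - y e.2) * (x e.1 - x e.2)).sum

theorem sum_iv {N : ℕ} {e : ℕ × ℕ} (h1 : e.1 < N) (h2 : e.2 < N) (x : ℕ → ℂ) :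
    ∑ j ∈ Finset.range N, (iv e j : ℂ) * x j = x e.1 - x e.2 := by
  have : ∀ j, (iv e j : ℂ) * x j = (if j = e.1 then x j else 0) - (if j = e.2 then x j else 0) := by
    intro j
    unfold iv
    push_cast
    rw [sub_mul]
    split_ifs <;> simp
  simp only [this]
  rw [Finset.sum_sub_distrib, Finset.sum_ite_eq', Finset.sum_ite_eq', if_pos (Finset.mem_range.2 h1),
    if_pos (Finset.mem_range.2 h2)]

theorem lap_form {N : ℕ} (E : List (ℕ × ℕ)) (hE : ∀ e ∈ E, e.1 < N ∧ e.2 < N) (y x : ℕ → ℂ) :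
    ∑ i ∈ Finset.range N, y i * ∑ j ∈ Finset.range N, (lap E i j : ℂ) * x j = Fm E y x := by
  induction E with
  | nil => simp [lap, Fm]
  | cons e E ih =>
    have ih' := ih fun e he => hE e (List.mem_cons_of_mem _ he)
    obtain ⟨h1, h2⟩ := hE e List.mem_cons_self
    have e1 : Fm (e :: E) y x = (y e.1 - y e.2) * (x e.1 - x e.2) + Fm E y x := by
      simp [Fm]
    have e2 : ∀ i j, (lap (e :: E) i j : ℂ) = (iv e i : ℂ) * (iv e j : ℂ) + (lap E i j : ℂ) := by
      intro i j
      simp [lap]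
    rw [e1, ← ih', ← sum_iv h1 h2 y, ← sum_iv h1 h2 x, Finset.sum_mul, ← Finset.sum_add_distrib]
    refine Finset.sum_congr rfl fun i _ => ?_
    simp only [e2]
    rw [Finset.mul_sum, Finset.mul_sum, Finset.mul_sum, ← Finset.sum_add_distrib]
    refine Finset.sum_congr rfl fun j _ => ?_
    ring

theorem norm_Fm_le (E : List (ℕ × ℕ)) (y x : ℕ → ℂ) :
    ‖Fm E y x‖ ≤ (Q E y + Q E x) / 2 := by
  induction E with
  | nil => simp [Fm, Q]
  | cons e E ih =>
    have e1 : Fm (e :: E) y x = (y e.1 - y e.2) * (x e.1 - x e.2) + Fm E y x := by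
      simp [Fm]
    have e2 : ∀ z : ℕ → ℂ, Q (e :: E) z = ‖z e.1 - z e.2‖ ^ 2 + Q E z := by
      intro z
      simp [Q]
    rw [e1, e2, e2]
    refine (norm_add_le _ _).trans ?_
    rw [norm_mul]
    nlinarith [sq_nonneg (‖y e.1 - y e.2‖ - ‖x e.1 - x e.2‖)]

theorem Fm_conj (E : List (ℕ × ℕ)) (x : ℕ → ℂ) :
    Fm E (fun i => (starRingEnd ℂ) (x i)) x = (Q E x : ℂ) := by
  induction E with
  | nil => simp [Fm, Q]
  | cons e E ih =>
    have e1 : Fm (e :: E) (fun i => (starRingEnd ℂ) (x i)) x =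
        ((starRingEnd ℂ) (x e.1) - (starRingEnd ℂ) (x e.2)) * (x e.1 - x e.2) +
          Fm E (fun i => (starRingEnd ℂ) (x i)) x := by
      simp [Fm]
    have e2 : Q (e :: E) x = ‖x e.1 - x e.2‖ ^ 2 + Q E x := by
      simp [Q]
    rw [e1, e2, ih, ← map_sub, mul_comm, Complex.mul_conj, ← Complex.sq_norm]
    push_cast
    rfl

/-! ### The equations -/

/-- The sum over a row of the matrix. -/
theorem row_sum (E : List (ℕ × ℕ)) (N : ℕ) (V : ℕ → ℂ) {i : ℕ} (hi : i < 2 * N + 1) :
    ∑ j ∈ Finset.range (2 * N + 1), entry (mat E N) i j * V j =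
      if i < N then ∑ j ∈ Finset.range N, (lap E i j : ℂ) * V (N + j)
      else if i < 2 * N then V (2 * N) else ∑ j ∈ Finset.range N, V j := by
  have h0 : ∑ j ∈ Finset.range (2 * N + 1), entry (mat E N) i j * V j =
      ∑ j ∈ Finset.range (2 * N + 1), (me E N i j : ℂ) * V j :=
    Finset.sum_congr rfl fun j hj => by rw [entry_mat E N hi (Finset.mem_range.1 hj)]
  rw [h0, Finset.sum_range_succ, two_mul, Finset.sum_range_add]
  have c1 : ∀ j < N, me E N i j = if i < N then 0 else if i < 2 * N then 0 else 1 := by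
    intro j hj
    unfold me
    split_ifs <;> first | rfl | omega
  have c2 : ∀ j < N, me E N i (N + j) = if i < N then lap E i j else 0 := by
    intro j hj
    unfold me
    have e : N + j - N = j := by omega
    split_ifs <;> first | rfl | omega | (rw [e])
  have c3 : me E N i (N + N) = if i < N then 0 else if i < 2 * N then 1 else 0 := by
    unfold me
    split_ifs <;> first | rfl | omega
  have s1 : ∑ j ∈ Finset.range N, (me E N i j : ℂ) * V j =
      if i < N then 0 else if i < 2 * N then 0 else ∑ j ∈ Finset.range N, V j := by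
    rw [Finset.sum_congr rfl fun j hj => by rw [c1 j (Finset.mem_range.1 hj)]]
    split_ifs <;> simp
  have s2 : ∑ j ∈ Finset.range N, (me E N i (N + j) : ℂ) * V (N + j) =
      if i < N then ∑ j ∈ Finset.range N, (lap E i j : ℂ) * V (N + j) else 0 := by
    rw [Finset.sum_congr rfl fun j hj => by rw [c2 j (Finset.mem_range.1 hj)]]
    split_ifs <;> simp
  rw [s1, s2, c3]
  split_ifs <;> simp <;> omega

theorem mulVec_row {E : List (ℕ × ℕ)} {N : ℕ} (V : ℕ → ℂ)
    (p : Ix (List.replicate (2 * N + 1) 1)) :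
    ∑ q, toMat (List.replicate (2 * N + 1) 1) (mat E N) p q * V (pos q) =
      if pos p < N then ∑ j ∈ Finset.range N, (lap E (pos p) j : ℂ) * V (N + j)
      else if pos p < 2 * N then V (2 * N) else ∑ j ∈ Finset.range N, V j := by
  rw [← row_sum E N V (pos_lt p)]
  exact sum_pos fun j => entry (mat E N) (pos p) j * V j

end Pool.Agent.H243R3.MU
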